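import Pool.Agent.Helper97.Ku.GoalsA

/-!
# LOS: ultrafilters exist, and the theorem of Los (MP_47bc22_lc)
-/

namespace Pool.Agent.Helper97.Ku.PkLOS

universe u

open BSet

theorem ufex : G_UFEX.{u} := by
  intro L _ a ha
  have hdisj : Disjoint ((Order.PFilter.principal a : Order.PFilter L) : Set L)
      ((Order.Ideal.principal (⊥ : L) : Order.Ideal L) : Set L) := by
    rw [Set.disjoint_left]
    intro x hx hx'
    have h1 : a ≤ x := Order.PFilter.mem_principal.1 hx
    have h2 : x ≤ ⊥ := Order.Ideal.mem_principal.1 hx'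
    exact ha (le_bot_iff.1 (h1.trans h2))
  obtain ⟨J, hJ, hI, hF⟩ := DistribLattice.prime_ideal_of_disjoint_filter_ideal hdisj
  have hF' : ∀ x, a ≤ x → x ∉ J := by
    intro x hx hxJ
    exact Set.disjoint_left.1 hF (Order.PFilter.mem_principal.2 hx) hxJ
  have hbot : (⊥ : L) ∈ J := hI (Order.Ideal.mem_principal.2 le_rfl)
  refine ⟨⟨fun x => x ∉ J, hF' ⊤ le_top, ?_, ?_, ?_⟩, hF' a le_rfl⟩
  · intro x y hxy hx hy
    exact hx (J.lower hxy hy)
  · intro x y hx hy hxy
    rcases hJ.mem_or_mem hxy with h | h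
    · exact hx h
    · exact hy h
  · intro x
    constructor
    · intro h h'
      have h1 : x ⊓ xᶜ ∈ J := by rw [inf_compl_eq_bot]; exact hbot
      rcases hJ.mem_or_mem h1 with h2 | h2
      · exact h' h2
      · exact h h2
    · intro h h'
      have h1 : x ∈ J := not_not.1 h
      have h2 := Order.Ideal.sup_mem h1 h'
      rw [sup_compl_eq_top] at h2
      exact hF' ⊤ le_top h2

theorem los (hfull : G_FULL.{u}) : G_LOS.{u} := by
  intro L _ U φ w
  induction φ generalizing w with
  | mem i j => exact NM.mk_E U (w i) (w j)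
  | eq i j => exact NM.mk_eq U (w i) (w j)
  | neg a ih =>
    show (¬ a.sat _ _) ↔ U.mem (a.val w)ᶜ
    rw [U.compl, ih]
  | and a b iha ihb =>
    show (a.sat _ _ ∧ b.sat _ _) ↔ U.mem (a.val w ⊓ b.val w)
    rw [U.inf_iff, iha, ihb]
  | all i a ih =>
    show (∀ x, a.sat _ (Function.update (fun j => NM.mk U (w j)) i x)) ↔
      U.mem (⨅ x, a.val (Function.update w i x))
    have hup : ∀ x : BSet L, (fun j => NM.mk U (Function.update w i x j)) =
        Function.update (fun j => NM.mk U (w j)) i (NM.mk U x) := by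
      intro x
      funext j
      by_cases hj : j = i
      · subst hj
        simp
      · simp [hj]
    constructor
    · intro h
      obtain ⟨x, -, hx⟩ := (hfull L (fun x => a.val (Function.update w i x)) (fun _ => ⊤)
        (Fml.val_ext a w i) (Ext.const ⊤) ⟨w i, rfl⟩).2
      simp only [top_himp] at hx
      rw [← hx, ← ih, hup]
      exact h _
    · intro h y
      obtain ⟨x, rfl⟩ := NM.mk_surj U y
      rw [← hup, ih]
      exact U.mono (iInf_le _ x) h

end Pool.Agent.Helper97.Ku.PkLOS
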