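import Pool.Agent.Helper97.Ku.GoalsG

/-!
# RZ: the interface between the names and the quotient (MP_47bc22_lc)
-/

set_option linter.unusedVariables false
set_option linter.unusedSectionVars false

namespace Pool.Agent.Helper97.Ku.PkRZ

universe u

open BSet

section
variable {Ω : Type u} [LinearOrder Ω] [WellFoundedLT Ω] {L : Type u} [CompleteBooleanAlgebra L]

theorem bo_inf_le {P : Prop} {x y : L} (h : P → x ≤ y) : bo P ⊓ x ≤ y := by
  by_cases hP : P
  · rw [bo_true hP, top_inf_eq]; exact h hP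
  · rw [bo_false hP, bot_inf_eq]; exact bot_le

theorem ext_top {φ : BSet L → L} (hφ : BSet.Ext φ) {x y : BSet L} (h : x.eq y = ⊤) : φ x = φ y := by
  apply le_antisymm
  · have := hφ x y
    rwa [h, top_inf_eq] at this
  · have := hφ y x
    rwa [eq_comm', h, top_inf_eq] at this

/-! ### fullness -/

theorem sup_BS (hF : G_FULL.{u}) (U : UF L) {φ : BSet L → L} (hφ : BSet.Ext φ) :
    U.mem (⨆ y, φ y) ↔ ∃ y, U.mem (φ y) := by
  constructor
  · intro h
    obtain ⟨x, -, hx⟩ := (hF L φ (fun _ => ⊤) hφ (Ext.const ⊤)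
      ⟨BSet.mk PEmpty (fun t => t.elim) (fun _ => ⊤), rfl⟩).1
    simp only [top_inf_eq] at hx
    exact ⟨x, hx ▸ h⟩
  · rintro ⟨y, hy⟩
    exact U.mono (le_iSup φ y) hy

theorem inf_BS (hF : G_FULL.{u}) (U : UF L) {φ : BSet L → L} (hφ : BSet.Ext φ) :
    U.mem (⨅ y, φ y) ↔ ∀ y, U.mem (φ y) := by
  constructor
  · intro h y
    exact U.mono (iInf_le φ y) h
  · intro h
    obtain ⟨x, -, hx⟩ := (hF L φ (fun _ => ⊤) hφ (Ext.const ⊤)
      ⟨BSet.mk PEmpty (fun t => t.elim) (fun _ => ⊤), rfl⟩).2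
    simp only [top_himp] at hx
    rw [← hx]
    exact h x

theorem nm_ext (hF : G_FULL.{u}) (U : UF L) (a b : NM U) (h : ∀ x, NM.E x a ↔ NM.E x b) :
    a = b := by
  obtain ⟨a', rfl⟩ := NM.mk_surj U a
  obtain ⟨b', rfl⟩ := NM.mk_surj U b
  rw [NM.mk_eq, eq_iff_ext, inf_BS hF U]
  · intro z
    have := h (NM.mk U z)
    rw [NM.mk_E, NM.mk_E] at this
    rw [U.inf_iff, U.himp_iff, U.himp_iff]
    exact ⟨this.1, this.2⟩
  · exact (Ext.himp (Ext.mem_left a') (Ext.mem_left b')).inf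
      (Ext.himp (Ext.mem_left b') (Ext.mem_left a'))

/-! ### names of elements -/

/-- value of equality of names -/
def we (a b : WN Ω L) : L := ⨆ i, (a.v i ⊓ b.v i)

omit [LinearOrder Ω] [WellFoundedLT Ω] in
theorem we_comm (a b : WN Ω L) : we a b = we b a := by
  unfold we; exact iSup_congr fun i => inf_comm _ _

omit [LinearOrder Ω] [WellFoundedLT Ω] in
theorem WExt.const (b : L) : WN.Ext (fun _ : WN Ω L => b) := fun _ _ => inf_le_right

omit [LinearOrder Ω] [WellFoundedLT Ω] in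
theorem WExt.inf {φ ψ : WN Ω L → L} (h : WN.Ext φ) (k : WN.Ext ψ) :
    WN.Ext (fun x => φ x ⊓ ψ x) :=
  fun x y => le_inf (le_trans (inf_le_inf_left _ inf_le_left) (h x y))
    (le_trans (inf_le_inf_left _ inf_le_right) (k x y))

omit [LinearOrder Ω] [WellFoundedLT Ω] in
theorem WExt.himp {φ ψ : WN Ω L → L} (h : WN.Ext φ) (k : WN.Ext ψ) :
    WN.Ext (fun x => φ x ⇨ ψ x) :=
  fun x y => by
    rw [le_himp_iff]
    have h1 : we x y ⊓ φ y ≤ φ x := by rw [we_comm]; exact h y x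
    have h2 : we x y ⊓ (φ x ⇨ ψ x) ⊓ φ y ≤ we x y ⊓ ψ x := by
      refine le_inf (le_trans inf_le_left inf_le_left) ?_
      refine le_trans ?_ (himp_inf_le (a := φ x) (b := ψ x))
      refine le_inf (le_trans inf_le_left inf_le_right) (le_trans ?_ h1)
      exact inf_le_inf_right _ inf_le_left
    exact le_trans h2 (k x y)

omit [LinearOrder Ω] [WellFoundedLT Ω] in
theorem WExt.iInf {ι : Sort*} {φ : ι → WN Ω L → L} (h : ∀ i, WN.Ext (φ i)) :
    WN.Ext (fun x => ⨅ i, φ i x) := fun x y =>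
  le_iInf fun i => le_trans (inf_le_inf_left _ (iInf_le _ i)) (h i x y)

omit [LinearOrder Ω] [WellFoundedLT Ω] in
theorem WExt.iSup {ι : Sort*} {φ : ι → WN Ω L → L} (h : ∀ i, WN.Ext (φ i)) :
    WN.Ext (fun x => ⨆ i, φ i x) := fun x y => by
  rw [inf_iSup_eq]
  exact iSup_mono fun i => h i x y

variable (G : Grd Ω) (U : UF L)

include G in
theorem W1s (hN : G_WNA.{u}) {A : WN Ω L → L} (hA : WN.Ext A) :
    U.mem (⨆ i, A (WN.chk i)) ↔ ∃ a, U.mem (A a) := by
  obtain ⟨⟨a, ha⟩, -, h3, -⟩ := (hN Ω L G).1 A hA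
  constructor
  · intro h
    rw [← h3, ← ha] at h
    exact ⟨a, h⟩
  · rintro ⟨b, hb⟩
    rw [← h3]
    exact U.mono (le_iSup A b) hb

include G in
theorem W1i (hN : G_WNA.{u}) {A : WN Ω L → L} (hA : WN.Ext A) :
    U.mem (⨅ i, A (WN.chk i)) ↔ ∀ a, U.mem (A a) := by
  obtain ⟨-, ⟨a, ha⟩, -, h4⟩ := (hN Ω L G).1 A hA
  constructor
  · intro h b
    rw [← h4] at h
    exact U.mono (iInf_le A b) h
  · intro h
    rw [← h4, ← ha]
    exact h a

include G in
theorem W2s (hN : G_WNA.{u}) {A : WN Ω L → WN Ω L → L} (h1 : ∀ b, WN.Ext (fun a => A a b))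
    (h2 : ∀ a, WN.Ext (fun b => A a b)) :
    U.mem (⨆ i, ⨆ j, A (WN.chk i) (WN.chk j)) ↔ ∃ a b, U.mem (A a b) := by
  have e : ∀ a, (⨆ j, A a (WN.chk j)) = ⨆ b, A a b := fun a =>
    ((hN Ω L G).1 (A a) (h2 a)).2.2.1.symm
  simp only [e]
  rw [W1s G U hN (A := fun a => ⨆ b, A a b) (WExt.iSup h1)]
  apply exists_congr
  intro a
  rw [← e, W1s G U hN (h2 a)]

variable (hW : G_RZW.{u})

include G U hW in
theorem we_eq (a b : WN Ω L) : we a b = a.set.eq b.set :=
  ((hW Ω L G U).2.2.2.1 a b).symm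

include G U hW in
theorem wext_of {φ : BSet L → L} (hφ : BSet.Ext φ) {T : WN Ω L → BSet L}
    (hT : ∀ a b, we a b ≤ (T a).eq (T b)) : WN.Ext (fun a => φ (T a)) := by
  intro a b
  exact le_trans (inf_le_inf_right _ (hT a b)) (hφ (T a) (T b))

include G U hW in
theorem chk_eq (i : Ω) : (WN.chk i : WN Ω L).set.eq (ck i) = ⊤ := by
  rw [eq_top_iff]
  refine le_trans ?_ ((hW Ω L G U).1 (WN.chk i) i)
  show (⊤ : L) ≤ bo (i = i)
  rw [bo_true rfl]

variable (hP : G_PRN.{u})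

include U hP in
theorem kpr_eq (a b c d : BSet L) : (kpr a b).eq (kpr c d) = a.eq c ⊓ b.eq d :=
  (hP L U).2.1 a b c d

include hP in
theorem isPr_iff (a b : BSet L) (z : NM U) : IsPr NM.E z (NM.mk U a) (NM.mk U b) ↔
    z = NM.mk U (kpr a b) := (hP L U).2.2.1 a b z

include G U hW hP in
theorem kchk_eq (i j : Ω) : (kpr (WN.chk i : WN Ω L).set (WN.chk j : WN Ω L).set).eq
    (kpr (ck i) (ck j)) = ⊤ := by
  rw [kpr_eq U hP, chk_eq G U hW, chk_eq G U hW, inf_top_eq]

include G U hW hP in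
theorem T1 (b : BSet L) (a a' : WN Ω L) : we a a' ≤ (kpr a.set b).eq (kpr a'.set b) := by
  rw [kpr_eq U hP, eq_refl, inf_top_eq, we_eq G U hW]

include G U hW hP in
theorem T2 (b : BSet L) (a a' : WN Ω L) : we a a' ≤ (kpr b a.set).eq (kpr b a'.set) := by
  rw [kpr_eq U hP, eq_refl, top_inf_eq, we_eq G U hW]

/-! ### the pairing function -/

theorem we_pr (a b a' b' : WN Ω L) : we a a' ⊓ we b b' ≤ we (WN.pr G a b) (WN.pr G a' b') := by
  unfold we
  rw [iSup_inf_eq]
  refine iSup_le fun i => ?_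
  rw [inf_iSup_eq]
  refine iSup_le fun j => ?_
  refine le_trans ?_ (le_iSup _ (G.pi (i, j)))
  show _ ≤ (a.v (G.pi.symm (G.pi (i, j))).1 ⊓ b.v (G.pi.symm (G.pi (i, j))).2) ⊓
    (a'.v (G.pi.symm (G.pi (i, j))).1 ⊓ b'.v (G.pi.symm (G.pi (i, j))).2)
  rw [Equiv.symm_apply_apply]
  exact le_of_eq (inf_inf_inf_comm _ _ _ _)

theorem we_refl (a : WN Ω L) : we a a = ⊤ := by
  unfold we
  simp only [inf_idem]
  exact a.tot

/-! ### functions -/

/-- value of `f(a) = b` -/
def ap (f : FN Ω L) (a b : WN Ω L) : L := ⨆ i, ⨆ j, (a.v i ⊓ b.v j ⊓ f.v i j)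

theorem ap_chk (f : FN Ω L) (i j : Ω) : ap f (WN.chk i) (WN.chk j) = f.v i j := by
  unfold ap
  apply le_antisymm
  · refine iSup_le fun i' => iSup_le fun j' => ?_
    show bo (i' = i) ⊓ bo (j' = j) ⊓ f.v i' j' ≤ f.v i j
    rw [inf_assoc]
    refine bo_inf_le fun h1 => bo_inf_le fun h2 => ?_
    rw [h1, h2]
  · refine le_trans ?_ (le_iSup _ i)
    refine le_trans ?_ (le_iSup _ j)
    show f.v i j ≤ bo (i = i) ⊓ bo (j = j) ⊓ f.v i j
    rw [bo_true rfl, bo_true rfl, top_inf_eq, top_inf_eq]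

/-- image of a name -/
def img (f : FN Ω L) (a : WN Ω L) : WN Ω L where
  v j := ⨆ i, (a.v i ⊓ f.v i j)
  tot := by
    rw [iSup_comm]
    simp only [← inf_iSup_eq, f.tot, inf_top_eq]
    exact a.tot
  dj j k h := by
    rw [← le_bot_iff, iSup_inf_eq]
    refine iSup_le fun i => ?_
    rw [inf_iSup_eq]
    refine iSup_le fun i' => ?_
    by_cases hi : i = i'
    · subst hi
      rw [inf_inf_inf_comm, f.fn i j k h, inf_bot_eq]
    · rw [inf_inf_inf_comm, a.dj i i' hi, bot_inf_eq]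

theorem ap_img (f : FN Ω L) (a : WN Ω L) : ap f a (img f a) = ⊤ := by
  rw [eq_top_iff, ← a.tot]
  unfold ap
  refine iSup_mono fun i => ?_
  calc a.v i = a.v i ⊓ ⨆ j, f.v i j := by rw [f.tot, inf_top_eq]
    _ = ⨆ j, (a.v i ⊓ f.v i j) := inf_iSup_eq _ _
    _ ≤ ⨆ j, (a.v i ⊓ (img f a).v j ⊓ f.v i j) := by
      refine iSup_mono fun j => ?_
      refine le_inf (le_inf inf_le_left ?_) inf_le_right
      exact le_iSup (fun i => a.v i ⊓ f.v i j) i

theorem ap_fun (f : FN Ω L) (a b b' : WN Ω L) : ap f a b ⊓ ap f a b' ≤ we b b' := by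
  unfold ap we
  rw [iSup_inf_eq]
  refine iSup_le fun i => ?_
  rw [iSup_inf_eq]
  refine iSup_le fun j => ?_
  rw [inf_iSup_eq]
  refine iSup_le fun i' => ?_
  rw [inf_iSup_eq]
  refine iSup_le fun j' => ?_
  by_cases hi : i = i'
  · subst hi
    by_cases hj : j = j'
    · subst hj
      refine le_trans (le_inf ?_ ?_) (le_iSup (fun m => b.v m ⊓ b'.v m) j)
      · exact inf_le_left.trans (inf_le_left.trans inf_le_right)
      · exact inf_le_right.trans (inf_le_left.trans inf_le_right)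
    · rw [inf_inf_inf_comm, f.fn i j j' hj, inf_bot_eq]
      exact bot_le
  · rw [inf_inf_inf_comm, inf_inf_inf_comm (a.v i), a.dj i i' hi, bot_inf_eq, bot_inf_eq]
    exact bot_le

variable (hR : G_RZF.{u})

include G hR in
theorem ap_mem (f : FN Ω L) (a b : WN Ω L) : (kpr a.set b.set).mem f.set = ap f a b :=
  (hR Ω L G).1 f a b

include G U hW hP hR in
theorem ap_ext1 (f : FN Ω L) (b : WN Ω L) : WN.Ext (fun a => ap f a b) := by
  have h := wext_of G U hW (Ext.mem_left f.set) (T := fun a : WN Ω L => kpr a.set b.set)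
    (T1 G U hW hP b.set)
  simpa only [ap_mem G hR] using h

include G U hW hP hR in
theorem ap_ext2 (f : FN Ω L) (a : WN Ω L) : WN.Ext (fun b => ap f a b) := by
  have h := wext_of G U hW (Ext.mem_left f.set) (T := fun b : WN Ω L => kpr a.set b.set)
    (T2 G U hW hP a.set)
  simpa only [ap_mem G hR] using h

/-- the element of `w` with the name `a` -/
noncomputable def cW (a : WN Ω L) : El NM.E (NM.mk U (ckΩ Ω L)) :=
  ⟨NM.mk U a.set, (NM.mk_E U _ _).2 (by rw [(hW Ω L G U).2.1 a]; exact U.top)⟩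

theorem cW_val (a : WN Ω L) : (cW G U hW a).1 = NM.mk U a.set := rfl

theorem cW_surj : Function.Surjective (cW G U hW) := by
  rintro ⟨x, hx⟩
  obtain ⟨x', rfl⟩ := NM.mk_surj U x
  rw [NM.mk_E] at hx
  obtain ⟨a, ha⟩ := (hW Ω L G U).2.2.1 x' hx
  exact ⟨a, Subtype.ext ha.symm⟩

theorem cW_eq (a b : WN Ω L) : cW G U hW a = cW G U hW b ↔ U.mem (we a b) := by
  have h : cW G U hW a = cW G U hW b ↔ (cW G U hW a).1 = (cW G U hW b).1 :=
    ⟨congrArg Subtype.val, fun h => Subtype.ext h⟩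
  rw [h, cW_val, cW_val, NM.mk_eq, we_eq G U hW]

/-- the function with the name `f` -/
noncomputable def cF (f : FN Ω L) (x : El NM.E (NM.mk U (ckΩ Ω L))) :
    El NM.E (NM.mk U (ckΩ Ω L)) :=
  cW G U hW (img f (Function.surjInv (cW_surj G U hW) x))

include hP hR in
theorem cF_ap (f : FN Ω L) (a b : WN Ω L) :
    cF G U hW f (cW G U hW a) = cW G U hW b ↔ U.mem (ap f a b) := by
  unfold cF
  set a' := Function.surjInv (cW_surj G U hW) (cW G U hW a) with ha'
  have h1 : cW G U hW a' = cW G U hW a := Function.surjInv_eq (cW_surj G U hW) _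
  rw [cW_eq] at h1 ⊢
  have h2 : U.mem (ap f a' (img f a')) := by rw [ap_img]; exact U.top
  constructor
  · intro h
    have h3 : U.mem (ap f a' b) := U.mono (ap_ext2 G U hW hP hR f a' _ _) (U.inf h h2)
    exact U.mono (ap_ext1 G U hW hP hR f b _ _) (U.inf h1 h3)
  · intro h
    rw [we_comm] at h1
    have h3 : U.mem (ap f a' b) := U.mono (ap_ext1 G U hW hP hR f b _ _) (U.inf h1 h)
    exact U.mono (ap_fun f a' _ _) (U.inf h2 h3)

/-- restricted graph -/
noncomputable def gr (f : FN Ω L) (P : WN Ω L → L) : BSet L :=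
  BSet.mk (Ω × Ω) (fun t => kpr (ck t.1) (ck t.2)) (fun t => f.v t.1 t.2 ⊓ P (WN.chk t.1))

variable (hN : G_WNA.{u})

include G U hN hW hP hR in
theorem gr_mem (f : FN Ω L) {P : WN Ω L → L} (hPe : WN.Ext P) (z : BSet L) :
    U.mem (z.mem (gr f P)) ↔ ∃ a b, U.mem (ap f a b) ∧ U.mem (P a) ∧
      U.mem (z.eq (kpr a.set b.set)) := by
  have h1 : z.mem (gr f P) = ⨆ i, ⨆ j, ((fun a b : WN Ω L => ap f a b ⊓ P a ⊓
      z.eq (kpr a.set b.set)) (WN.chk i) (WN.chk j)) := by
    unfold gr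
    rw [mem_mk, iSup_prod]
    refine iSup_congr fun i => iSup_congr fun j => ?_
    show (f.v i j ⊓ P (WN.chk i)) ⊓ z.eq (kpr (ck i) (ck j)) =
      ap f (WN.chk i) (WN.chk j) ⊓ P (WN.chk i) ⊓ z.eq (kpr (WN.chk i).set (WN.chk j).set)
    rw [ap_chk, ext_top (Ext.eq_right z) (kchk_eq G U hW hP i j)]
  rw [h1]
  refine (W2s G U hN (A := fun a b : WN Ω L => ap f a b ⊓ P a ⊓ z.eq (kpr a.set b.set))
    ?_ ?_).trans ?_
  · intro b
    exact WExt.inf (WExt.inf (ap_ext1 G U hW hP hR f b) hPe)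
      (wext_of G U hW (Ext.eq_right z) (T1 G U hW hP b.set))
  · intro a
    exact WExt.inf (WExt.inf (ap_ext2 G U hW hP hR f a) (WExt.const _))
      (wext_of G U hW (Ext.eq_right z) (T2 G U hW hP a.set))
  · apply exists_congr; intro a
    apply exists_congr; intro b
    show U.mem (ap f a b ⊓ P a ⊓ z.eq (kpr a.set b.set)) ↔ _
    rw [U.inf_iff, U.inf_iff, and_assoc]

theorem gr_top (f : FN Ω L) : gr f (fun _ => ⊤) = f.set := by
  unfold gr FN.set
  congr 1
  funext t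
  exact inf_top_eq _

include hN hP hR in
theorem isGraph_cF (f : FN Ω L) : IsGraph NM.E (NM.mk U (ckΩ Ω L)) (NM.mk U (ckΩ Ω L))
    (NM.mk U f.set) (cF G U hW f) := by
  intro z
  obtain ⟨z', rfl⟩ := NM.mk_surj U z
  rw [NM.mk_E, ← gr_top, gr_mem G U hW hP hR hN f (WExt.const ⊤)]
  constructor
  · rintro ⟨a, b, h1, -, h3⟩
    refine ⟨cW G U hW a, ?_⟩
    rw [(cF_ap G U hW hP hR f a b).2 h1, cW_val, cW_val, isPr_iff U hP, NM.mk_eq]
    exact h3
  · rintro ⟨x, hx⟩
    obtain ⟨a, rfl⟩ := cW_surj G U hW x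
    obtain ⟨b, hb⟩ := cW_surj G U hW (cF G U hW f (cW G U hW a))
    rw [← hb, cW_val, cW_val, isPr_iff U hP, NM.mk_eq] at hx
    exact ⟨a, b, (cF_ap G U hW hP hR f a b).1 hb.symm, U.top, hx⟩

include hN hP hR in
theorem cF_rep (f : FN Ω L) : Rep NM.E (NM.mk U (ckΩ Ω L)) (NM.mk U (ckΩ Ω L))
    (cF G U hW f) := ⟨_, isGraph_cF G U hW hP hR hN f⟩

/-- functions with the same graph are equal -/
theorem graph_unique {w g : NM U} {f f' : El NM.E w → El NM.E w}
    (hP : G_PRN.{u}) (h : IsGraph NM.E w w g f) (h' : IsGraph NM.E w w g f') : f = f' := by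
  funext x
  obtain ⟨a, ha⟩ := NM.mk_surj U x.1
  obtain ⟨b, hb⟩ := NM.mk_surj U (f x).1
  have h1 : IsPr NM.E (NM.mk U (kpr a b)) x.1 (f x).1 := by
    rw [← ha, ← hb]
    exact ((hP L U).2.2.1 a b _).2 rfl
  obtain ⟨y, hy⟩ := (h' _).1 ((h _).2 ⟨x, h1⟩)
  obtain ⟨e1, e2⟩ := ((hP L U).2.2.2 _ _ _ _ _ _ h1 hy).1 rfl
  have e3 : x = y := Subtype.ext e1
  subst e3
  exact Subtype.ext e2

theorem graph_unique' (hF : G_FULL.{u}) {w g g' : NM U} {f : El NM.E w → El NM.E w}
    (h : IsGraph NM.E w w g f) (h' : IsGraph NM.E w w g' f) : g = g' :=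
  nm_ext hF U g g' fun z => (h z).trans (h' z).symm

include hP hR hN in
theorem cF_surj (hF : G_FULL.{u}) (f : El NM.E (NM.mk U (ckΩ Ω L)) → El NM.E (NM.mk U (ckΩ Ω L)))
    (hf : Rep NM.E (NM.mk U (ckΩ Ω L)) (NM.mk U (ckΩ Ω L)) f) : ∃ f', cF G U hW f' = f := by
  obtain ⟨g, hg⟩ := hf
  obtain ⟨g', rfl⟩ := NM.mk_surj U g
  obtain ⟨f', hf'⟩ := (hR Ω L G).2 g'
  -- membership in the graph
  have key : ∀ a b : WN Ω L, U.mem ((kpr a.set b.set).mem g') ↔
      f (cW G U hW a) = cW G U hW b := by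
    intro a b
    rw [← NM.mk_E, hg]
    constructor
    · rintro ⟨x, hx⟩
      have h1 : IsPr NM.E (NM.mk U (kpr a.set b.set)) (cW G U hW a).1 (cW G U hW b).1 :=
        (isPr_iff U hP _ _ _).2 rfl
      obtain ⟨e1, e2⟩ := ((hP L U).2.2.2 _ _ _ _ _ _ h1 hx).1 rfl
      have e3 : cW G U hW a = x := Subtype.ext e1
      rw [e3]
      exact Subtype.ext e2.symm
    · intro h
      refine ⟨cW G U hW a, ?_⟩
      rw [h]
      exact (isPr_iff U hP _ _ _).2 rfl
  have hA1 : ∀ b : WN Ω L, WN.Ext (fun a : WN Ω L => (kpr a.set b.set).mem g') := fun b =>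
    wext_of G U hW (Ext.mem_left g') (T1 G U hW hP b.set)
  have hA2 : ∀ a : WN Ω L, WN.Ext (fun b : WN Ω L => (kpr a.set b.set).mem g') := fun a =>
    wext_of G U hW (Ext.mem_left g') (T2 G U hW hP a.set)
  have hA0 : ∀ i j : Ω, (kpr (WN.chk i : WN Ω L).set (WN.chk j : WN Ω L).set).mem g' =
      (kpr (ck i) (ck j)).mem g' := fun i j =>
    ext_top (Ext.mem_left g') (kchk_eq G U hW hP i j)
  have H1 : U.mem (⨅ z : BSet L, (z.mem g' ⇨ ⨆ i : Ω, ⨆ j : Ω, z.eq (kpr (ck i) (ck j)))) := by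
    rw [inf_BS hF U]
    · intro z
      rw [U.himp_iff]
      intro hz
      rw [← NM.mk_E, hg] at hz
      obtain ⟨x, hx⟩ := hz
      obtain ⟨a, rfl⟩ := cW_surj G U hW x
      obtain ⟨b, hb⟩ := cW_surj G U hW (f (cW G U hW a))
      rw [← hb, cW_val, cW_val, isPr_iff U hP, NM.mk_eq] at hx
      have h2 := (W2s G U hN (A := fun a b : WN Ω L => z.eq (kpr a.set b.set))
        (fun b => wext_of G U hW (Ext.eq_right z) (T1 G U hW hP b.set))
        (fun a => wext_of G U hW (Ext.eq_right z) (T2 G U hW hP a.set))).2 ⟨a, b, hx⟩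
      have h3 : ∀ i j : Ω, z.eq (kpr (WN.chk i : WN Ω L).set (WN.chk j : WN Ω L).set) =
          z.eq (kpr (ck i) (ck j)) := fun i j =>
        ext_top (Ext.eq_right z) (kchk_eq G U hW hP i j)
      simpa only [h3] using h2
    · exact Ext.himp (Ext.mem_left g') (Ext.iSup fun i => Ext.iSup fun j => Ext.eq_left _)
  have H2 : U.mem (⨅ i : Ω, ⨆ j : Ω, (kpr (ck i) (ck j)).mem g') := by
    have h1 := (W1i G U hN (A := fun a : WN Ω L => ⨆ j : Ω,
      (kpr a.set (WN.chk j : WN Ω L).set).mem g') (WExt.iSup fun j => hA1 _)).2 (by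
        intro a
        rw [W1s G U hN (hA2 a)]
        obtain ⟨b, hb⟩ := cW_surj G U hW (f (cW G U hW a))
        exact ⟨b, (key a b).2 hb.symm⟩)
    simpa only [hA0] using h1
  have H3 : U.mem (⨅ i : Ω, ⨅ j : Ω, ⨅ k : Ω, ⨅ _ : j ≠ k,
      ((kpr (ck i) (ck j)).mem g' ⊓ (kpr (ck i) (ck k)).mem g')ᶜ) := by
    have hC1 : ∀ b c : WN Ω L, WN.Ext (fun a : WN Ω L =>
        (((kpr a.set b.set).mem g' ⊓ (kpr a.set c.set).mem g') ⇨ we b c)) := fun b c =>
      WExt.himp (WExt.inf (hA1 b) (hA1 c)) (WExt.const _)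
    have hC2 : ∀ a c : WN Ω L, WN.Ext (fun b : WN Ω L =>
        (((kpr a.set b.set).mem g' ⊓ (kpr a.set c.set).mem g') ⇨ we b c)) := fun a c => by
      refine WExt.himp (WExt.inf (hA2 a) (WExt.const _)) (ψ := fun b => we b c) ?_
      simp only [we_eq G U hW]
      exact wext_of G U hW (Ext.eq_left c.set) (T := fun b : WN Ω L => b.set)
        (fun b b' => le_of_eq (we_eq G U hW b b'))
    have hC3 : ∀ a b : WN Ω L, WN.Ext (fun c : WN Ω L =>
        (((kpr a.set b.set).mem g' ⊓ (kpr a.set c.set).mem g') ⇨ we b c)) := fun a b => by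
      refine WExt.himp (WExt.inf (WExt.const _) (hA2 a)) (ψ := fun c => we b c) ?_
      simp only [we_eq G U hW]
      exact wext_of G U hW (Ext.eq_right b.set) (T := fun b : WN Ω L => b.set)
        (fun b b' => le_of_eq (we_eq G U hW b b'))
    have h1 := (W1i G U hN (WExt.iInf fun j : Ω => WExt.iInf fun k : Ω =>
      hC1 (WN.chk j) (WN.chk k))).2 (by
        intro a
        rw [W1i G U hN (WExt.iInf fun k : Ω => hC2 a (WN.chk k))]
        intro b
        rw [W1i G U hN (hC3 a b)]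
        intro c
        rw [U.himp_iff, U.inf_iff]
        rintro ⟨h1, h2⟩
        rw [← cW_eq G U hW, ← (key a b).1 h1, ← (key a c).1 h2])
    refine U.mono ?_ h1
    refine le_iInf fun i => le_iInf fun j => le_iInf fun k => le_iInf fun hjk => ?_
    refine le_trans (iInf_le _ i) (le_trans (iInf_le _ j) (le_trans (iInf_le _ k) ?_))
    have h5 : we (WN.chk j : WN Ω L) (WN.chk k) = ⊥ := by
      rw [← le_bot_iff]
      unfold we
      refine iSup_le fun m => ?_
      show bo (m = j) ⊓ bo (m = k) ≤ ⊥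
      refine bo_inf_le fun h6 => ?_
      rw [bo_false]
      intro h7
      exact hjk (h6.symm.trans h7)
    rw [h5, hA0, hA0, himp_bot]
  have hall := U.mono hf' (U.inf (U.inf H1 H2) H3)
  rw [← NM.mk_eq] at hall
  refine ⟨f', ?_⟩
  have h9 := isGraph_cF G U hW hP hR hN f'
  rw [← hall] at h9
  exact graph_unique U hP h9 hg

end

theorem rz (hF : G_FULL.{u}) (hC : G_CHK.{u}) (hP : G_PRN.{u}) (hN : G_WNA.{u})
    (hW : G_RZW.{u}) (hR : G_RZF.{u}) : G_RZ.{u} := by
  intro Ω _ _ L _ G U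
  obtain ⟨c1, c2, c3, c4, hord, homega⟩ := hC Ω L G U
  have ho : NM.E (NM.mk U (ck G.w0)) (NM.mk U (ckΩ Ω L)) := by
    rw [NM.mk_E, c2]
    refine U.mono (le_iSup _ G.w0) ?_
    rw [BSet.eq_refl]
    exact U.top
  have hwp : ∀ a b a' b' : WN Ω L, cW G U hW a = cW G U hW a' → cW G U hW b = cW G U hW b' →
      cW G U hW (WN.pr G a b) = cW G U hW (WN.pr G a' b') := by
    intro a b a' b' h1 h2
    rw [cW_eq] at h1 h2 ⊢
    exact U.mono (we_pr G a b a' b') (U.inf h1 h2)
  let p : El NM.E (NM.mk U (ckΩ Ω L)) → El NM.E (NM.mk U (ckΩ Ω L)) →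
      El NM.E (NM.mk U (ckΩ Ω L)) := fun x y =>
    cW G U hW (WN.pr G (Function.surjInv (cW_surj G U hW) x)
      (Function.surjInv (cW_surj G U hW) y))
  have p_cW : ∀ a b : WN Ω L, p (cW G U hW a) (cW G U hW b) = cW G U hW (WN.pr G a b) := by
    intro a b
    exact hwp _ _ _ _ (Function.surjInv_eq _ _) (Function.surjInv_eq _ _)
  refine ⟨{
    o := NM.mk U (ck G.w0)
    w := NM.mk U (ckΩ Ω L)
    omega := homega
    ord := hord
    o_mem := ho
    cW := cW G U hW
    cW_surj := cW_surj G U hW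
    cW_eq := cW_eq G U hW
    cW_lt := fun a b => by
      rw [cW_val, cW_val, NM.mk_E, (hW Ω L G U).2.2.2.2.1]
    cW_om := fun a => by
      rw [cW_val, NM.mk_E, (hW Ω L G U).2.2.2.2.2]
    p := p
    p_cW := p_cW
    p_rep := ?_
    cF := cF G U hW
    cF_rep := cF_rep G U hW hP hR hN
    cF_surj := cF_surj G U hW hP hR hN hF
    cF_ap := cF_ap G U hW hP hR
    setB := ?_
    sub := ?_
    cble := ?_
    cble' := ?_ }⟩
  · -- the graph of the pairing function
    refine ⟨NM.mk U (BSet.mk (Ω × Ω) (fun t => kpr (kpr (ck t.1) (ck t.2)) (ck (G.pi t)))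
      (fun _ => ⊤)), fun z => ?_⟩
    obtain ⟨z', rfl⟩ := NM.mk_surj U z
    have hpe : ∀ a b a' b' : WN Ω L, we a a' ⊓ we b b' ≤
        (kpr (kpr a.set b.set) (WN.pr G a b).set).eq
          (kpr (kpr a'.set b'.set) (WN.pr G a' b').set) := by
      intro a b a' b'
      rw [kpr_eq U hP, kpr_eq U hP, ← we_eq G U hW, ← we_eq G U hW, ← we_eq G U hW]
      exact le_inf le_rfl (we_pr G a b a' b')
    have h0 : ∀ i j : Ω, z'.eq (kpr (kpr (ck i) (ck j)) (ck (G.pi (i, j)))) =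
        z'.eq (kpr (kpr (WN.chk i : WN Ω L).set (WN.chk j : WN Ω L).set)
          (WN.pr G (WN.chk i : WN Ω L) (WN.chk j)).set) := by
      intro i j
      symm
      apply ext_top (Ext.eq_right z')
      rw [kpr_eq U hP, kchk_eq G U hW hP, top_inf_eq, eq_top_iff]
      refine le_trans ?_ ((hW Ω L G U).1 (WN.pr G (WN.chk i) (WN.chk j)) (G.pi (i, j)))
      show (⊤ : L) ≤ bo ((G.pi.symm (G.pi (i, j))).1 = i) ⊓ bo ((G.pi.symm (G.pi (i, j))).2 = j)
      rw [Equiv.symm_apply_apply, bo_true rfl, bo_true rfl, inf_top_eq]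
    have h1 : NM.E (NM.mk U z') (NM.mk U (BSet.mk (Ω × Ω)
        (fun t => kpr (kpr (ck t.1) (ck t.2)) (ck (G.pi t))) (fun _ => ⊤))) ↔
        ∃ a b : WN Ω L, U.mem (z'.eq (kpr (kpr a.set b.set) (WN.pr G a b).set)) := by
      rw [NM.mk_E, mem_mk, iSup_prod]
      simp only [top_inf_eq, h0]
      exact W2s G U hN (A := fun a b : WN Ω L =>
        z'.eq (kpr (kpr a.set b.set) (WN.pr G a b).set))
        (fun b => wext_of G U hW (Ext.eq_right z') (fun a a' => by
          have := hpe a b a' b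
          rwa [we_refl b, inf_top_eq] at this))
        (fun a => wext_of G U hW (Ext.eq_right z') (fun b b' => by
          have := hpe a b a b'
          rwa [we_refl a, top_inf_eq] at this))
    rw [h1]
    constructor
    · rintro ⟨a, b, hab⟩
      refine ⟨cW G U hW a, cW G U hW b, NM.mk U (kpr a.set b.set), ?_, ?_⟩
      · exact (isPr_iff U hP _ _ _).2 rfl
      · rw [p_cW, cW_val, isPr_iff U hP, NM.mk_eq]
        exact hab
    · rintro ⟨x, y, q, h2, h3⟩
      obtain ⟨a, rfl⟩ := cW_surj G U hW x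
      obtain ⟨b, rfl⟩ := cW_surj G U hW y
      rw [cW_val, cW_val, isPr_iff U hP] at h2
      rw [h2, p_cW, cW_val, isPr_iff U hP, NM.mk_eq] at h3
      exact ⟨a, b, h3⟩
  · -- sets of triples of functions
    intro B hB
    refine ⟨NM.mk U (BSet.mk (FN Ω L × FN Ω L × FN Ω L)
      (fun t => kpr (kpr t.1.set t.2.1.set) t.2.2.set) (fun t => B t.1 t.2.1 t.2.2)),
      fun x g h => ?_⟩
    have heqf : ∀ x x' : FN Ω L, x.set.eq x'.set ≤ x.eqf x' := by
      intro x x'
      unfold FN.eqf FN.eqAt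
      refine le_iInf fun i => ?_
      have hv : ∀ (y : FN Ω L) (j : Ω), (kpr (WN.chk i : WN Ω L).set (WN.chk j : WN Ω L).set).mem
          y.set = y.v i j := fun y j => by
        rw [ap_mem G hR, ap_chk]
      calc x.set.eq x'.set = x.set.eq x'.set ⊓ ⨆ j, x.v i j := by rw [x.tot, inf_top_eq]
        _ = ⨆ j, (x.set.eq x'.set ⊓ x.v i j) := inf_iSup_eq _ _
        _ ≤ ⨆ j, (x.v i j ⊓ x'.v i j) := by
          refine iSup_mono fun j => le_inf inf_le_right ?_
          rw [← hv x j, ← hv x' j]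
          exact mem_congr_right _ _ _
    have hmem : (kpr (kpr x.set g.set) h.set).mem (BSet.mk (FN Ω L × FN Ω L × FN Ω L)
        (fun t => kpr (kpr t.1.set t.2.1.set) t.2.2.set) (fun t => B t.1 t.2.1 t.2.2)) =
        B x g h := by
      rw [mem_mk]
      apply le_antisymm
      · refine iSup_le fun t => ?_
        rw [kpr_eq U hP, kpr_eq U hP]
        refine le_trans ?_ (hB t.1 t.2.1 t.2.2 x g h)
        refine le_inf (le_inf (le_inf ?_ ?_) ?_) inf_le_left
        · rw [eq_comm' x.set]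
          exact inf_le_right.trans (inf_le_left.trans (inf_le_left.trans (heqf _ _)))
        · rw [eq_comm' g.set]
          exact inf_le_right.trans (inf_le_left.trans (inf_le_right.trans (heqf _ _)))
        · rw [eq_comm' h.set]
          exact inf_le_right.trans (inf_le_right.trans (heqf _ _))
      · refine le_trans ?_ (le_iSup _ (x, g, h))
        show B x g h ≤ B x g h ⊓ _
        rw [BSet.eq_refl, inf_top_eq]
    rw [← hmem, ← NM.mk_E]
    have gx := isGraph_cF G U hW hP hR hN x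
    have gg := isGraph_cF G U hW hP hR hN g
    have gh := isGraph_cF G U hW hP hR hN h
    constructor
    · rintro ⟨x', g', h', q, r, e1, e2, e3, e4, e5, e6⟩
      have f1 := graph_unique' U hF e1 gx
      have f2 := graph_unique' U hF e2 gg
      have f3 := graph_unique' U hF e3 gh
      subst f1
      subst f2
      subst f3
      rw [isPr_iff U hP] at e4
      subst e4
      rw [isPr_iff U hP] at e5
      subst e5
      exact e6
    · intro hh
      exact ⟨_, _, _, _, _, gx, gg, gh, (isPr_iff U hP _ _ _).2 rfl,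
        (isPr_iff U hP _ _ _).2 rfl, hh⟩
  · -- subsets
    intro a
    obtain ⟨x, rfl⟩ := NM.mk_surj U a
    have hne : G.c0 ≠ G.c1 := by
      have := (G.lt_c1 G.c0).2 rfl
      exact ne_of_lt this
    let f : FN Ω L := {
      v := fun i j => (bo (j = G.c0) ⊓ (ck i).mem x) ⊔ (bo (j = G.c1) ⊓ ((ck i).mem x)ᶜ)
      tot := fun i => by
        rw [eq_top_iff, ← sup_compl_eq_top (x := (ck i).mem x)]
        refine sup_le ?_ ?_
        · refine le_trans ?_ (le_iSup _ G.c0)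
          rw [bo_true rfl, top_inf_eq]
          exact le_sup_left
        · refine le_trans ?_ (le_iSup _ G.c1)
          rw [bo_true (P := G.c1 = G.c1) rfl, top_inf_eq]
          exact le_sup_right
      fn := fun i j k hjk => by
        rw [← le_bot_iff, inf_sup_right, inf_sup_left, inf_sup_left]
        refine sup_le (sup_le ?_ ?_) (sup_le ?_ ?_)
        · rw [inf_assoc]
          refine bo_inf_le fun h1 => ?_
          rw [inf_left_comm]
          refine bo_inf_le fun h2 => absurd (h1.trans h2.symm) hjk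
        · rw [inf_inf_inf_comm, inf_compl_eq_bot, inf_bot_eq]
        · rw [inf_inf_inf_comm, compl_inf_eq_bot, inf_bot_eq]
        · rw [inf_assoc]
          refine bo_inf_le fun h1 => ?_
          rw [inf_left_comm]
          refine bo_inf_le fun h2 => absurd (h1.trans h2.symm) hjk }
    refine ⟨f, fun n => ?_⟩
    have hf0 : ∀ i, f.v i G.c0 = (ck i).mem x := by
      intro i
      show (bo (G.c0 = G.c0) ⊓ (ck i).mem x) ⊔ (bo (G.c0 = G.c1) ⊓ ((ck i).mem x)ᶜ) = _
      rw [bo_true rfl, bo_false hne, top_inf_eq, bot_inf_eq, sup_bot_eq]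
    have h1 : (M1 G L).ap f n (M1 G L).c0 = ⨆ i, (n.v i ⊓ (ck i).mem x) := by
      show (⨆ i, ⨆ j, (n.v i ⊓ bo (j = G.c0) ⊓ f.v i j)) = _
      refine iSup_congr fun i => ?_
      rw [← hf0]
      apply le_antisymm
      · refine iSup_le fun j => ?_
        rw [inf_assoc, inf_left_comm]
        refine bo_inf_le fun h2 => ?_
        rw [h2]
      · refine le_trans ?_ (le_iSup _ G.c0)
        rw [bo_true rfl, inf_top_eq]
    have h2 : n.set.mem x = ⨆ i, (n.v i ⊓ (ck i).mem x) := by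
      apply le_antisymm
      · calc n.set.mem x = n.set.mem x ⊓ ⨆ i, n.v i := by rw [n.tot, inf_top_eq]
          _ = ⨆ i, (n.set.mem x ⊓ n.v i) := inf_iSup_eq _ _
          _ ≤ ⨆ i, (n.v i ⊓ (ck i).mem x) := by
            refine iSup_mono fun i => le_inf inf_le_right ?_
            refine le_trans ?_ (mem_congr_left n.set (ck i) x)
            exact le_inf (inf_le_right.trans ((hW Ω L G U).1 n i)) inf_le_left
      · refine iSup_le fun i => ?_
        refine le_trans ?_ (mem_congr_left (ck i) n.set x)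
        refine le_inf ?_ inf_le_right
        rw [eq_comm']
        exact inf_le_left.trans ((hW Ω L G U).1 n i)
    show NM.E (NM.mk U n.set) (NM.mk U x) ↔ _
    rw [NM.mk_E, h1, h2]
  · -- countability of an element
    intro a f hf hfo hfi
    obtain ⟨f', rfl⟩ := cF_surj G U hW hP hR hN hF f hf
    obtain ⟨x, hx⟩ := NM.mk_surj U a.1
    have htr : ∀ y, NM.E y a.1 → NM.E y (NM.mk U (ckΩ Ω L)) := hord.1 a.1 a.2
    refine ⟨fun y => ⟨(cF G U hW f' ⟨y.1, htr y.1 y.2⟩).1, hfo _ y.2⟩, ?_, ?_⟩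
    · refine ⟨NM.mk U (gr f' (fun c => c.set.mem x)), fun z => ?_⟩
      obtain ⟨z', rfl⟩ := NM.mk_surj U z
      rw [NM.mk_E, gr_mem G U hW hP hR hN f' (wext_of G U hW (Ext.mem_left x)
        (T := fun c : WN Ω L => c.set) (fun b b' => le_of_eq (we_eq G U hW b b')))]
      constructor
      · rintro ⟨c, d, h1, h2, h3⟩
        have h4 : NM.E (NM.mk U c.set) a.1 := by rw [← hx, NM.mk_E]; exact h2
        refine ⟨⟨NM.mk U c.set, h4⟩, ?_⟩
        have h5 := (cF_ap G U hW hP hR f' c d).2 h1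
        show IsPr NM.E (NM.mk U z') (NM.mk U c.set) (cF G U hW f' (cW G U hW c)).1
        rw [h5, cW_val, isPr_iff U hP, NM.mk_eq]
        exact h3
      · rintro ⟨y, hy⟩
        obtain ⟨c, hc⟩ := cW_surj G U hW ⟨y.1, htr y.1 y.2⟩
        have hc1 : NM.mk U c.set = y.1 := congrArg Subtype.val hc
        obtain ⟨d, hd⟩ := cW_surj G U hW (cF G U hW f' (cW G U hW c))
        refine ⟨c, d, (cF_ap G U hW hP hR f' c d).1 hd.symm, ?_, ?_⟩
        · rw [← NM.mk_E, hc1, hx]
          exact y.2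
        · have h6 : IsPr NM.E (NM.mk U z') y.1 (cF G U hW f' ⟨y.1, htr y.1 y.2⟩).1 := hy
          rw [← hc, ← hd, ← hc1, cW_val, isPr_iff U hP, NM.mk_eq] at h6
          exact h6
    · intro y y' hyy
      have h0 : (cF G U hW f' ⟨y.1, htr y.1 y.2⟩).1 = (cF G U hW f' ⟨y'.1, htr y'.1 y'.2⟩).1 := by
        have := congrArg Subtype.val hyy
        exact this
      have h1 : cF G U hW f' ⟨y.1, htr y.1 y.2⟩ = cF G U hW f' ⟨y'.1, htr y'.1 y'.2⟩ :=
        Subtype.ext h0
      have h2 := hfi _ _ y.2 y'.2 h1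
      have h3 : y.1 = y'.1 := by
        have := congrArg Subtype.val h2
        exact this
      exact Subtype.ext h3
  · -- countability of the whole set
    rintro ⟨f, ⟨g, hg⟩, hfi⟩
    have htr : ∀ y, NM.E y (NM.mk U (ck G.w0)) → NM.E y (NM.mk U (ckΩ Ω L)) :=
      hord.1 _ ho
    refine ⟨fun x => ⟨(f x).1, htr _ (f x).2⟩, ⟨g, hg⟩, fun x => (f x).2, ?_⟩
    intro x y hxy
    have h0 : (f x).1 = (f y).1 := by
      have := congrArg Subtype.val hxy
      exact this
    exact hfi (Subtype.ext h0)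

end Pool.Agent.Helper97.Ku.PkRZ
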